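import Mathlib

namespace Pool.Agent.Results.MP_9b3cbe_gt.Q2

open ExteriorAlgebra Matrix

/-- Index set of a basis of `10 H ⊕ E₈`. -/
abbrev I := (Fin 2 × Fin 10) ⊕ Fin 8

/-- The Gram matrix of `10 H ⊕ E₈`. -/
def G : Matrix I I ℤ :=
  fromBlocks (blockDiagonal fun _ : Fin 10 => !![0, 1; 1, 0]) 0 0 CartanMatrix.E₈

/-- For some `ω ∈ W` and some basis `b` of `U`, `b_i b_j ω = G_ij T`. -/
def Gram {A : Type} [Ring A] [Algebra ℤ A] (U W : Submodule ℤ A) (T : A) : Prop :=
  ∃ ω ∈ W, ∃ b : Module.Basis I ℤ U, ∀ i j, (b i).1 * (b j).1 * ω = G i j • T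

/-- `Gram` for the exterior powers of `V`, with `T = e_1 ⋯ e_8`. -/
def Arises (V : Type) [AddCommGroup V] (e : Fin 8 → V) : Prop :=
  Gram (⋀[ℤ]^2 V) (⋀[ℤ]^4 V) (ιMulti ℤ 8 e)

abbrev V := Fin 8 → ℤ
noncomputable def T : ExteriorAlgebra ℤ V := ιMulti ℤ 8 (Pi.basisFun ℤ (Fin 8))
noncomputable def x (a : Fin 8) : ExteriorAlgebra ℤ V := ι ℤ (Pi.basisFun ℤ (Fin 8) a)
noncomputable def m (l : List (Fin 8)) : ExteriorAlgebra ℤ V := (l.map x).prod

lemma mm (l : List (Fin 8)) : m l ∈ ⋀[ℤ]^l.length V := by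
  induction l with
  | nil => exact Submodule.one_le.1 (pow_zero _).ge
  | cons a l ih => 
    rw [List.length_cons, exteriorPower, pow_succ']
    exact Submodule.mul_mem_mul ⟨_, rfl⟩ ih

def si (a : Fin 8) : List (Fin 8) → ℤ
  | [] => 1
  | b :: l => if a < b then 1 else if a = b then 0 else -si a l
def li (a : Fin 8) : List (Fin 8) → List (Fin 8)
  | [] => [a]
  | b :: l => if a ≤ b then a :: b :: l else b :: li a l
def ls : List (Fin 8) → List (Fin 8)
  | [] => []
  | a :: l => li a (ls l)
def ss : List (Fin 8) → ℤ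
  | [] => 1
  | a :: l => si a (ls l) * ss l

lemma mc (a l) : m (a :: l) = x a * m l := rfl
lemma xx (a b) : x a * x b = -(x b * x a) := eq_neg_of_add_eq_zero_left (ι_add_mul_swap _ _)

lemma ins (a l) : x a * m l = si a l • m (li a l) := by
  induction l with
  | nil => simp [si, li, m]
  | cons b l ih =>
    rw [si, li]
    rcases lt_trichotomy a b with h | rfl | h
    · rw [if_pos h, if_pos h.le, one_smul]; rfl
    · rw [if_neg (lt_irrefl _), if_pos rfl, zero_smul, mc, ← mul_assoc, x, ι_sq_zero, zero_mul]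
    · rw [if_neg h.not_gt, if_neg h.ne', if_neg h.not_ge, mc, mc, ← mul_assoc, xx, neg_mul,
        mul_assoc, ih, neg_smul, mul_smul_comm]

lemma srt (l) : m l = ss l • m (ls l) := by
  induction l with
  | nil => simp [ss, ls]
  | cons a l ih => rw [mc, ih, mul_smul_comm, ins, smul_smul, mul_comm]; rfl

def om : List (ℤ × List (Fin 8)) := [(1, [0, 1, 2, 5]), (1, [0, 2, 4, 5]), (-1, [0, 3, 4, 5]), (-1, [0, 1, 3, 6]), (-1, [1, 2, 4, 6]), (-1, [2, 3, 5, 6]), (1, [0, 2, 3, 7]), (1, [1, 3, 4, 7]), (-1, [2, 4, 5, 7]), (-1, [2, 3, 6, 7]), (-1, [0, 4, 6, 7]), (1, [1, 4, 6, 7]), (1, [0, 5, 6, 7]), (1, [1, 5, 6, 7])]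
def A (p : Fin 28) : Fin 8 := [0, 0, 0, 0, 0, 0, 0, 1, 1, 1, 1, 1, 1, 2, 2, 2, 2, 2, 3, 3, 3, 3, 4, 4, 4, 5, 5, 6].getD p 0
def B (p : Fin 28) : Fin 8 := [1, 2, 3, 4, 5, 6, 7, 2, 3, 4, 5, 6, 7, 3, 4, 5, 6, 7, 4, 5, 6, 7, 5, 6, 7, 6, 7, 7].getD p 0
def ix : I → ℕ := Sum.elim (fun t => 10 * t.1 + t.2) (20 + ·)
def tb (N i j : ℕ) : ℤ := Int.subNatNat (Nat.mod (Nat.shiftRight N (3 * (28 * i + j))) 8) 2
def P : Matrix I (Fin 28) ℤ := fun i p => tb 0x69168b69a49345a44b69929110949264a85165a25469a4924524924922d24924524924da29249348a49149365248b49229249a69248a49a49149a4d24922924d24924924d249248a4d249229249248949249149249149249249249248a49249249a4924924d249249269249249249249249249249249269249249a49249249249249229249249249249249269249249249249249249249249149249249249249249245249249249249245249249249249249249249a49249249249249249249248a4924924924934924924934924924926924924924d249249249249249a49249249249249249249249249249249249a4924924924924924924d24924924924934924924924924d249249249249249249249249249a492492492492492692492492492492492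 (ix i) p
def Q : Matrix (Fin 28) I ℤ := fun p i => tb 0x49249249a4924924924924924924924924924924d24924924924924924d249249249229249249248a4924924924924924924924934924924924922924924924924924924924d249249244904a29249249a4926924924924924d249249249249249249249249269249249249249249249249249a4924924924924924926924924924922924924924924924924924914924924924924d24524924934d249249249249248a49249249249229229249269349248b4924924d249245249249249249249345249249249249349249229249a29a4d248a49249a4924922d349249249249249249249349249249249249249249a4924924514d249a49145249149249249249249349229249249a49249349249a4526db91b4894924924d349249249249249249a49249a p (ix i)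
def F : Matrix (Fin 28) (Fin 28) ℤ := fun p q => tb 0x4924924d24924912924924924924924524924924d249249249249249a49248a49249149269249249249149249a49249245249249249249248a4926924924914926924924926924914924914924924914924924914924924924924926d249a69249249249249269248a49245249249269249249249249249249149249349249349249249249148a4524524924924924914924d24924924924924da4932924924914914924924926924924da49a4924924924d249229249249a49249269249a49249249a49245149229249249225249248a4922924926d249249249249249249269249248a49249249249249229249149249249248a49349a48a49249249249249248b4d24924924d24924922d269249249248a492652492492492492491451492492492492492 p q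

noncomputable def w : ExteriorAlgebra ℤ V := (om.map fun t => t.1 • m t.2).sum
noncomputable def E (a b : Fin 8) : ⋀[ℤ]^2 V := ⟨m [a, b], mm [a, b]⟩

lemma top (k : List (Fin 8)) (L : List (ℤ × List (Fin 8)))
    (h : ∀ t ∈ L, ss (k ++ t.2) = 0 ∨ ls (k ++ t.2) = [0, 1, 2, 3, 4, 5, 6, 7]) :
    m k * (L.map fun t => t.1 • m t.2).sum = (L.map fun t => t.1 * ss (k ++ t.2)).sum • T := by
  induction L with
  | nil => simp
  | cons t L ih =>
    rw [List.forall_mem_cons] at h
    have : m k * m t.2 = m (k ++ t.2) := by simp [m]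
    rw [List.map_cons, List.map_cons, List.sum_cons, List.sum_cons, mul_add, ih h.2, add_smul,
      mul_smul_comm, this, srt, mul_smul]
    rcases h.1 with g | g <;> rw [g]
    · simp
    · rfl

lemma c1 : ∀ p q, (∀ t ∈ om, ss ([A p, B p, A q, B q] ++ t.2) = 0 ∨
    ls ([A p, B p, A q, B q] ++ t.2) = [0, 1, 2, 3, 4, 5, 6, 7]) ∧
    (om.map fun t => t.1 * ss ([A p, B p, A q, B q] ++ t.2)).sum = F p q := by decide +kernel
lemma c2 : Q * P = 1 := by decide +kernel
lemma c3 : P * Q = 1 := (mul_eq_one_comm_of_card_eq _ _ _ (by simp)).1 c2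
lemma c4 : P * F = G * Qᵀ := by decide +kernel
lemma c5 : ∀ a b, a = b ∨ ∃ p, A p = a ∧ B p = b ∨ A p = b ∧ B p = a := by decide +kernel

noncomputable def v (i : I) : ⋀[ℤ]^2 V := ∑ p, P i p • E (A p) (B p)

lemma sp : ⊤ ≤ Submodule.span ℤ (Set.range v) := by
  have h (p) : E (A p) (B p) ∈ Submodule.span ℤ (Set.range v) := by
    have : E (A p) (B p) = ∑ i, Q p i • v i := by
      simp only [v, Finset.smul_sum, smul_smul]
      rw [Finset.sum_comm]
      simp only [← Finset.sum_smul, ← mul_apply, c2, one_apply]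
      simp
    exact this ▸ Submodule.sum_mem _ fun i _ => Submodule.smul_mem _ _ (Submodule.subset_span ⟨i, rfl⟩)
  rw [← exteriorPower.ιMulti_span_of_span ℤ 2 V (Pi.basisFun ℤ (Fin 8)).span_eq, Submodule.span_le]
  rintro _ ⟨f, hf, rfl⟩
  obtain ⟨a, ha⟩ := hf ⟨0, rfl⟩
  obtain ⟨b, hb⟩ := hf ⟨1, rfl⟩
  have : exteriorPower.ιMulti ℤ 2 f = E a b := Subtype.ext (by
    simp only [E, m, List.map, x, ha, hb]; simp [ιMulti_apply, vecTail])
  rw [this]
  rcases c5 a b with rfl | ⟨p, ⟨rfl, rfl⟩ | ⟨rfl, rfl⟩⟩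
  · rw [show E a a = 0 from Subtype.ext (by simp [E, m, x])]; exact Submodule.zero_mem _
  · exact h p
  · rw [show E (B p) (A p) = -E (A p) (B p) from Subtype.ext (by simpa [E, m] using xx _ _)]
    exact Submodule.neg_mem _ (h p)

theorem result : Arises (Fin 8 → ℤ) fun i j => if j = i then 1 else 0 := by
  rw [show (fun i j => if j = i then 1 else 0 : Fin 8 → V) = Pi.basisFun ℤ (Fin 8) by
    ext i j; simp [Pi.single_apply]]
  refine ⟨w, list_sum_mem fun y hy => ?_, basisOfTopLeSpanOfCardEqFinrank v sp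
    (by rw [exteriorPower.finrank_eq]; simp; rfl), fun i j => ?_⟩
  · obtain ⟨t, ht, rfl⟩ := List.mem_map.1 hy
    exact Submodule.smul_mem _ _ ((by decide : ∀ t ∈ om, t.2.length = 4) t ht ▸ mm t.2)
  have h (p q) : (E (A p) (B p)).1 * (E (A q) (B q)).1 * w = F p q • T := by
    rw [← (c1 p q).2, ← top _ _ (c1 p q).1]; simp [E, m, w, mul_assoc]
  have : G = P * F * Pᵀ := by rw [c4, Matrix.mul_assoc, ← transpose_mul, c3]; simp
  rw [this, coe_basisOfTopLeSpanOfCardEqFinrank]
  change _ = _ • T
  simp only [v, Submodule.coe_sum, Submodule.coe_smul, Finset.sum_mul, Finset.mul_sum, smul_mul_assoc,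
    mul_smul_comm, h, smul_smul, mul_apply, transpose_apply, Finset.sum_smul]
  refine Finset.sum_congr rfl fun _ _ => ?_
  rw [Finset.smul_sum]
  exact Finset.sum_congr rfl fun _ _ => by rw [smul_smul, mul_comm]

end Pool.Agent.Results.MP_9b3cbe_gt.Q2
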